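import Pool.Agent.H55.Plank

namespace Pool.Agent.Results.MP_65e89e_gt.NotTietze

/-- `f` is an upper semi-continuous map with non-empty closed values. -/
def Usc {Y X : Type 1} [TopologicalSpace Y] [TopologicalSpace X] (f : Y → Set X) : Prop :=
  (∀ y, (f y).Nonempty ∧ IsClosed (f y)) ∧ ∀ U : Set X, IsOpen U → IsOpen {y | f y ⊆ U}

/-- every usc map from a closed subspace `A` of `X` to the non-empty closed subsets of `X`
extends to a usc map on `X` -/
def SetSelfTietze (X : Type 1) [TopologicalSpace X] : Prop :=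
  ∀ A : Set X, IsClosed A → ∀ f : A → Set X, Usc f →
    ∃ F : X → Set X, Usc F ∧ ∀ a : A, F a = f a

theorem result : ∃ (X : Type 1) (_ : TopologicalSpace X),
    CompactSpace X ∧ T2Space X ∧ ¬ SetSelfTietze X := by
  refine ⟨Pool.Agent.H55.Plank.T, inferInstance, inferInstance, inferInstance, fun h => ?_⟩
  obtain ⟨A, f, hA, h1, h2, h3⟩ := Pool.Agent.H55.Plank.no_ext
  obtain ⟨F, hF, hFf⟩ := h A hA f ⟨h1, h2⟩
  exact h3 ⟨F, hF.1, hF.2, hFf⟩

end Pool.Agent.Results.MP_65e89e_gt.NotTietze
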